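import Pool.Agent.Work.MP_db9399_lh.Base
import Pool.Agent.Work.MP_db9399_lc_helper6.ASM

/-!
# THEOREM LCH, block ASM: the total colouring from the matchings and LEMU, part by part
(helper35, from helper6 and helper90)
-/

set_option autoImplicit false

namespace Pool.Agent.Work.MP_db9399_lh.helper35.ASM

open Finset Classical
open Pool.Agent.Work.MP_db9399_bg (mem_nb mem_c3 LabP Lbl c3f c3 rs eR Ix HPre Spr)
open Pool.Agent.Work.MP_db9399_all (nb)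
open Pool.Agent.Work.MP_db9399_px (LWalk hit ee)
open Pool.Agent.Work.MP_db9399_dn (NB IsMat Tot)
open Pool.Agent.Work.MP_db9399_lc.helper6.ASM (rest rest_deg nb_ne mat_eq)
open Pool.Agent.Work.MP_db9399_lh

universe u

/-! ## The general statement -/

section general
variable {V : Type u} [Fintype V]

/-- the graph of the remaining edges inside the class `i` -/
def resti {β : Type} (G : SimpleGraph V) (M : β → SimpleGraph V) (π : V → ZMod 3) (i : ZMod 3) :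
    SimpleGraph V where
  Adj x y := (rest G M).Adj x y ∧ π x = i ∧ π y = i
  symm := ⟨fun _ _ h => ⟨h.1.symm, h.2.2, h.2.1⟩⟩
  loopless := ⟨fun x h => (rest G M).loopless.irrefl x h.1⟩

/-- total colouring from disjoint matchings `M b` which cover almost everything; the vertices of the
class `i` may use the colours of `Q i` for the other edges -/
theorem core3 {k d : ℕ} (G : SimpleGraph V) (c : V → Fin k) (T : Finset (Fin k))
    (Q : ZMod 3 → Finset (Fin k)) (π : V → ZMod 3)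
    (W X Y : Finset V) (M : Fin k → SimpleGraph V)
    (hdeg : ∀ v, (nb G v).card ≤ d) (hT : T.card = d + 2) (hQT : ∀ i, Q i ⊆ T)
    (hcadj : ∀ v w, G.Adj v w → c v ≠ c w) (hcQ : ∀ v, c v ∉ Q (π v))
    (hle : ∀ b v w, (M b).Adj v w → G.Adj v w)
    (hMQ : ∀ b v w, (M b).Adj v w → b ∉ Q (π v)) (hmat : ∀ b, IsMat (M b))
    (hd : ∀ b b', b ≠ b' → ∀ v w, (M b).Adj v w → ¬ (M b').Adj v w)
    (hc : ∀ b v w, (M b).Adj v w → c v ≠ b)
    (hcov : ∀ v, v ∉ W → ∀ b ∈ T \ Q (π v), b ≠ c v → (nb (M b) v).Nonempty)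
    (hcovW : ∀ v ∈ W, ∃ b0, ∀ b ∈ T \ Q (π v), b ≠ c v → b ≠ b0 → (nb (M b) v).Nonempty)
    (hXY : Disjoint X Y)
    (hXX : ∀ v ∈ X, ∀ w ∈ X, G.Adj v w → ∃ b, (M b).Adj v w)
    (hYY : ∀ v ∈ Y, ∀ w ∈ Y, G.Adj v w → ∃ b, (M b).Adj v w)
    (hBW : ∀ v w, G.Adj v w → v ∉ X → v ∉ Y → w ∈ W → ∃ b, (M b).Adj v w)
    (hπ : ∀ v w, G.Adj v w → π v ≠ π w → ∃ b, (M b).Adj v w) :
    ∃ t : V → V → Fin k, Tot G c t ∧ ∀ b v w, (M b).Adj v w → t v w = b := by
  have hTk : T.card ≤ k := by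
    have := Finset.card_le_univ T
    rwa [Fintype.card_fin] at this
  have hk : 0 < k := by omega
  have hcd : ∀ i, (T \ Q i).card + (Q i).card = d + 2 := by
    intro i
    rw [Finset.card_sdiff_add_card_eq_card (hQT i), hT]
  have hd1 : ∀ v, v ∉ W → (nb (rest G M) v).card + 1 ≤ (Q (π v)).card := by
    intro v hv
    have h1 := rest_deg hle hd v ((T \ Q (π v)).erase (c v)) (by
      intro b hb
      rw [Finset.mem_erase] at hb
      exact hcov v hv b hb.2 hb.1)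
    have h2 := Finset.pred_card_le_card_erase (s := T \ Q (π v)) (a := c v)
    have h3 := hdeg v
    have h4 := hcd (π v)
    omega
  have hd2 : ∀ v ∈ W, (nb (rest G M) v).card ≤ (Q (π v)).card := by
    intro v hv
    obtain ⟨b0, hb0⟩ := hcovW v hv
    have h1 := rest_deg hle hd v (((T \ Q (π v)).erase (c v)).erase b0) (by
      intro b hb
      rw [Finset.mem_erase, Finset.mem_erase] at hb
      exact hb0 b hb.2.2 hb.2.1 hb.1)
    have h2 := Finset.pred_card_le_card_erase (s := T \ Q (π v)) (a := c v)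
    have h4 := Finset.pred_card_le_card_erase (s := (T \ Q (π v)).erase (c v)) (a := b0)
    have h3 := hdeg v
    have h5 := hcd (π v)
    omega
  have hd0 : ∀ v, (nb (rest G M) v).card ≤ (Q (π v)).card := by
    intro v
    by_cases hv : v ∈ W
    · exact hd2 v hv
    · have := hd1 v hv
      omega
  have hnbi : ∀ i v, (nb (resti G M π i) v).card ≤ (nb (rest G M) v).card := by
    intro i v
    refine Finset.card_le_card ?_
    intro y hy
    exact mem_nb.mpr (mem_nb.mp hy).1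
  have hex : ∀ i : ZMod 3, ∃ t : V → V → ℕ, (∀ v w, t v w = t w v) ∧
      (∀ v w, (resti G M π i).Adj v w → t v w < (Q i).card) ∧
      ∀ v, Set.InjOn (t v) (nb (resti G M π i) v : Set V) := by
    intro i
    refine Pool.Agent.Work.MP_db9399_lu.stmt_LEMU (resti G M π i) (Q i).card X Y hXY ?_ ?_ ?_ ?_
    · intro v
      by_cases hv : π v = i
      · have h1 := hd0 v
        rw [hv] at h1
        exact (hnbi i v).trans h1
      · have h1 : nb (resti G M π i) v = ∅ := by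
          rw [Finset.eq_empty_iff_forall_notMem]
          intro y hy
          exact hv (mem_nb.mp hy).2.1
        rw [h1]
        exact Nat.zero_le _
    · intro v hv w hw h
      obtain ⟨b, hb⟩ := hXX v hv w hw h.1.1
      exact h.1.2 b hb
    · intro v hv w hw h
      obtain ⟨b, hb⟩ := hYY v hv w hw h.1.1
      exact h.1.2 b hb
    · intro v w h hvX hvY
      have h1 := hd1 w (fun hw => by
        obtain ⟨b, hb⟩ := hBW v w h.1.1 hvX hvY hw
        exact h.1.2 b hb)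
      rw [h.2.2] at h1
      have h2 := hnbi i w
      omega
  choose t' hsym hlt hinj using hex
  -- the colours of the palettes
  obtain ⟨φ, hφQ, hφI⟩ : ∃ φ : ZMod 3 → ℕ → Fin k, (∀ i n, n < (Q i).card → φ i n ∈ Q i) ∧
      ∀ i n n', n < (Q i).card → n' < (Q i).card → φ i n = φ i n' → n = n' := by
    refine ⟨fun i n => if h : n < (Q i).card then
      (((Q i).equivFinOfCardEq rfl).symm ⟨n, h⟩ : Fin k) else ⟨0, hk⟩, ?_, ?_⟩
    · intro i n hn
      simp only [dif_pos hn]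
      exact (((Q i).equivFinOfCardEq rfl).symm ⟨n, hn⟩).2
    · intro i n n' hn hn' h
      simp only [dif_pos hn, dif_pos hn'] at h
      have := ((Q i).equivFinOfCardEq rfl).symm.injective (Subtype.ext h)
      simpa using this
  set t : V → V → Fin k := fun v w => if h : ∃ b, (M b).Adj v w then h.choose else
    if π v = π w then φ (π v) (t' (π v) v w) else ⟨0, hk⟩ with ht
  have huniq : ∀ v w b b', (M b).Adj v w → (M b').Adj v w → b = b' := by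
    intro v w b b' h h'
    by_contra hne
    exact hd b b' hne v w h h'
  have htM : ∀ v w b, (M b).Adj v w → t v w = b := by
    intro v w b h
    have he : ∃ b, (M b).Adj v w := ⟨b, h⟩
    simp only [ht, dif_pos he]
    exact huniq v w _ _ he.choose_spec h
  have htR : ∀ v w, (¬ ∃ b, (M b).Adj v w) → π v = π w → t v w = φ (π v) (t' (π v) v w) := by
    intro v w h h'
    simp only [ht, dif_neg h, if_pos h']
  have htN : ∀ v w, (¬ ∃ b, (M b).Adj v w) → π v ≠ π w → t v w = ⟨0, hk⟩ := by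
    intro v w h h'
    simp only [ht, dif_neg h, if_neg h']
  have hres : ∀ v w, G.Adj v w → (¬ ∃ b, (M b).Adj v w) →
      π v = π w ∧ (resti G M π (π v)).Adj v w := by
    intro v w hvw h
    have h1 : π v = π w := by
      by_contra h2
      exact h (hπ v w hvw h2)
    exact ⟨h1, ⟨hvw, fun b hb => h ⟨b, hb⟩⟩, rfl, h1.symm⟩
  refine ⟨t, ⟨hcadj, ?_, ?_, ?_⟩, fun b v w h => htM v w b h⟩
  · intro v w
    by_cases h : ∃ b, (M b).Adj v w
    · obtain ⟨b, hb⟩ := h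
      rw [htM v w b hb, htM w v b hb.symm]
    · have h' : ¬ ∃ b, (M b).Adj w v := fun ⟨b, hb⟩ => h ⟨b, hb.symm⟩
      by_cases h2 : π v = π w
      · rw [htR v w h h2, htR w v h' h2.symm, ← h2, hsym]
      · rw [htN v w h h2, htN w v h' (fun h3 => h2 h3.symm)]
  · intro v y hy z hz hyz
    have hy' : G.Adj v y := mem_nb.mp hy
    have hz' : G.Adj v z := mem_nb.mp hz
    by_cases h1 : ∃ b, (M b).Adj v y
    · obtain ⟨b, hb⟩ := h1
      rw [htM v y b hb] at hyz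
      by_cases h2 : ∃ b, (M b).Adj v z
      · obtain ⟨b', hb'⟩ := h2
        rw [htM v z b' hb'] at hyz
        subst hyz
        exact Finset.card_le_one.mp (hmat b v) y (mem_nb.mpr hb) z (mem_nb.mpr hb')
      · obtain ⟨h3, h4⟩ := hres v z hz' h2
        rw [htR v z h2 h3] at hyz
        exact absurd (hyz ▸ hφQ _ _ (hlt _ v z h4)) (hMQ b v y hb)
    · obtain ⟨h5, h6⟩ := hres v y hy' h1
      rw [htR v y h1 h5] at hyz
      by_cases h2 : ∃ b, (M b).Adj v z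
      · obtain ⟨b', hb'⟩ := h2
        rw [htM v z b' hb'] at hyz
        exact absurd (hyz ▸ hφQ _ _ (hlt _ v y h6)) (hMQ b' v z hb')
      · obtain ⟨h3, h4⟩ := hres v z hz' h2
        rw [htR v z h2 h3] at hyz
        exact hinj (π v) v (mem_nb.mpr h6) (mem_nb.mpr h4)
          (hφI _ _ _ (hlt _ v y h6) (hlt _ v z h4) hyz)
  · intro v w hvw
    by_cases h : ∃ b, (M b).Adj v w
    · obtain ⟨b, hb⟩ := h
      rw [htM v w b hb]
      exact (hc b v w hb).symm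
    · obtain ⟨h3, h4⟩ := hres v w hvw h
      rw [htR v w h h3]
      intro he
      exact hcQ v (he ▸ hφQ _ _ (hlt _ v w h4))

end general

/-! ## The matchings -/

section mats
variable {V : Type u} [Fintype V] {l m r K K1 S k w W1 d ν : ℕ} {g δ : ℝ} {G : SimpleGraph V}
  {UH : Finset V} {c0 : V → Fin k} {EH : SimpleGraph V} {tu : V → Fin k}
  {lab : V → Lh l m r K K1 S} {e : Ix m w → Fin k} {τ : Fin w → Option (ZMod 3)}
  {ρ : Fin w → ZMod 3} {e1 : Fin W1 → Fin k} {sy : Fin W1 → Fin (K1 + 1) × Fin (K1 + 1)}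
  {tp : V → ZMod 3} {pal : Fin m × Fin w → Fin (r + 1)}
  {c : V → Fin k} {wv : V → Fin k → V} {Nd M : Ix m w → SimpleGraph V}
  {O : Ix m w → Finset V} {Kk M1 : Fin W1 → SimpleGraph V}
  {O1 : Fin W1 → Finset V}

/-- the pair `x`, `y` is one of the pairs `u`, `wv u b` -/
def US (UH : Finset V) (c0 tu : V → Fin k) (e : Ix m w → Fin k) (τ : Fin w → Option (ZMod 3))
    (e1 : Fin W1 → Fin k) (tp : V → ZMod 3) (wv : V → Fin k → V) (b : Fin k) (x y : V) : Prop :=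
  x ∈ UH ∧ Vd e τ e1 (tp x) b ∧ b ≠ c0 x ∧ b ≠ tu x ∧ wv x b = y

theorem mem_UW {b : Fin k} {v : V} : v ∈ UW UH c0 tu e τ e1 tp wv b ↔
    ∃ x, US UH c0 tu e τ e1 tp wv b x v := by
  unfold UW US
  rw [Finset.mem_filter]
  constructor
  · rintro ⟨_, x, h1, h0, h2, h3, h4⟩
    exact ⟨x, h1, h0, h2, h3, h4⟩
  · rintro ⟨x, h1, h0, h2, h3, h4⟩
    exact ⟨Finset.mem_univ _, x, h1, h0, h2, h3, h4⟩

/-- the adjacency in the matching of the colour `b` -/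
def MA (UH : Finset V) (c0 tu : V → Fin k) (EH : SimpleGraph V) (e : Ix m w → Fin k)
    (τ : Fin w → Option (ZMod 3)) (e1 : Fin W1 → Fin k) (tp : V → ZMod 3)
    (wv : V → Fin k → V) (Nd M : Ix m w → SimpleGraph V)
    (Kk M1 : Fin W1 → SimpleGraph V) (b : Fin k) (x y : V) : Prop :=
  (∃ i, e i = b ∧ ((Nd i).Adj x y ∨ (M i).Adj x y)) ∨
    (∃ j, e1 j = b ∧ ((Kk j).Adj x y ∨ (M1 j).Adj x y)) ∨
    US UH c0 tu e τ e1 tp wv b x y ∨ US UH c0 tu e τ e1 tp wv b y x ∨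
    (EH.Adj x y ∧ tu x = b)

theorem MA_symm (hH : HPre G UH c0 EH tu) {b : Fin k} {x y : V}
    (h : MA UH c0 tu EH e τ e1 tp wv Nd M Kk M1 b x y) :
    MA UH c0 tu EH e τ e1 tp wv Nd M Kk M1 b y x := by
  rcases h with ⟨i, hi, h⟩ | ⟨j, hj, h⟩ | h | h | h
  · exact Or.inl ⟨i, hi, h.imp (fun h => h.symm) (fun h => h.symm)⟩
  · exact Or.inr (Or.inl ⟨j, hj, h.imp (fun h => h.symm) (fun h => h.symm)⟩)
  · exact Or.inr (Or.inr (Or.inr (Or.inl h)))
  · exact Or.inr (Or.inr (Or.inl h))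
  · exact Or.inr (Or.inr (Or.inr (Or.inr ⟨h.1.symm, by rw [← hH.tt _ _ h.1]; exact h.2⟩)))

/-- facts about the partners -/
theorem US_fact (hU : UPar G d δ UH c0 tu lab e τ e1 sy tp c wv) {b : Fin k} {x y : V}
    (h : US UH c0 tu e τ e1 tp wv b x y) :
    G.Adj x y ∧ y ∉ UH ∧ c y ≠ b := by
  obtain ⟨h1, h0, h2, h3, h4⟩ := h
  have := hU.adj x h1 b h2 h3 h0
  rwa [h4] at this

omit [Fintype V] in
theorem US_left {b : Fin k} {x y y' : V} (h : US UH c0 tu e τ e1 tp wv b x y)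
    (h' : US UH c0 tu e τ e1 tp wv b x y') : y = y' := by
  rw [← h.2.2.2.2, h'.2.2.2.2]

theorem US_right (hU : UPar G d δ UH c0 tu lab e τ e1 sy tp c wv) {b : Fin k} {x x' y : V}
    (h : US UH c0 tu e τ e1 tp wv b x y) (h' : US UH c0 tu e τ e1 tp wv b x' y) : x = x' :=
  hU.inj2 x h.1 x' h'.1 b h.2.2.1 h.2.2.2.1 h'.2.2.1 h'.2.2.2.1 h.2.1 h'.2.1
    (by rw [h.2.2.2.2, h'.2.2.2.2])

theorem US_col (hU : UPar G d δ UH c0 tu lab e τ e1 sy tp c wv) {b b' : Fin k} {x y : V}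
    (h : US UH c0 tu e τ e1 tp wv b x y) (h' : US UH c0 tu e τ e1 tp wv b' x y) : b = b' :=
  hU.inj x h.1 b b' h.2.2.1 h.2.2.2.1 h'.2.2.1 h'.2.2.2.1 h.2.1 h'.2.1
    (by rw [h.2.2.2.2, h'.2.2.2.2])

theorem mem_Ub {i : Ix m w} {x : V} : x ∈ Ub UH c0 tu lab e τ e1 tp c wv Nd i ↔
    (x ∉ UH ∧ τ i.2.2 ≠ some (pt (lab x)) ∧ ce (lab x) ∈ c3 i.1 i.2.1 ∧ c x ≠ e i ∧
      x ∉ UW UH c0 tu e τ e1 tp wv (e i)) ∨
      (x ∉ UH ∧ τ i.2.2 ≠ some (pt (lab x)) ∧ ce (lab x) ∉ c3 i.1 i.2.1 ∧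
        ¬ (nb (Nd i) x).Nonempty) := by
  unfold Ub Jk
  rw [Finset.mem_filter, Finset.mem_filter]
  simp only [Finset.mem_univ, true_and]

/-- the cell and the part of a partner -/
theorem US_cel (hU : UPar G d δ UH c0 tu lab e τ e1 sy tp c wv)
    (he : Function.Injective e) (hee : ∀ x y, e x ≠ e1 y) {i : Ix m w} {x y : V}
    (h : US UH c0 tu e τ e1 tp wv (e i) x y) :
    ce (lab y) ∈ c3 i.1 i.2.1 ∧ τ i.2.2 ≠ some (pt (lab y)) := by
  have h1 : τ i.2.2 ≠ some (tp x) := by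
    rcases h.2.1 with ⟨i', hi', hi2⟩ | ⟨j, hj⟩
    · rw [he hi'] at hi2
      exact hi2
    · exact absurd hj.symm (hee _ _)
  have := hU.cel x h.1 i h.2.2.1 h.2.2.2.1 h1
  rwa [h.2.2.2.2] at this

/-- the label of a partner -/
theorem US_lam (hU : UPar G d δ UH c0 tu lab e τ e1 sy tp c wv) {j : Fin W1} {x y : V}
    (h : US UH c0 tu e τ e1 tp wv (e1 j) x y) :
    ¬ (sp (lab y) = (sy j).1 ∨ sp (lab y) = (sy j).2) := by
  have := hU.spl x h.1 j h.2.2.1 h.2.2.2.1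
  rw [h.2.2.2.2] at this
  exact fun h2 => h2.elim this.1 this.2

/-- a vertex which is a partner in the colour `b` -/
def Pa (UH : Finset V) (lab : V → Lh l m r K K1 S) (e : Ix m w → Fin k)
    (τ : Fin w → Option (ZMod 3)) (e1 : Fin W1 → Fin k)
    (sy : Fin W1 → Fin (K1 + 1) × Fin (K1 + 1)) (b : Fin k) (x : V) : Prop :=
  x ∉ UH ∧ (∀ i, e i = b → ce (lab x) ∈ c3 i.1 i.2.1 ∧ τ i.2.2 ≠ some (pt (lab x))) ∧
    ∀ j, e1 j = b → ¬ (sp (lab x) = (sy j).1 ∨ sp (lab x) = (sy j).2)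

/-- types of a pair outside `UH` -/
theorem typ_o (hN : NDec ν G UH lab τ Nd)
    (hP : P0R g G d UH c0 tu lab e τ ρ e1 tp c wv Nd M O)
    (hL : Lft G UH lab sy Nd M Kk) (hE : PeR G UH c0 tu lab e τ e1 tp wv Kk M O M1 O1)
    {b : Fin k} {x y : V}
    (h : (∃ i, e i = b ∧ ((Nd i).Adj x y ∨ (M i).Adj x y)) ∨
      (∃ j, e1 j = b ∧ ((Kk j).Adj x y ∨ (M1 j).Adj x y))) :
    (∃ i, e i = b ∧ (Nd i).Adj x y ∧ x ∉ UH ∧ y ∉ UH ∧ ce (lab x) ∉ c3 i.1 i.2.1 ∧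
        (nb (Nd i) x).Nonempty ∧ ty ν (τ i.2.2) (cr (lab x)) (cr (lab y))) ∨
      (∃ i, e i = b ∧ (M i).Adj x y ∧ x ∉ UH ∧ y ∉ UH ∧
        x ∈ Ub UH c0 tu lab e τ e1 tp c wv Nd i ∧ (Rr G UH lab).Adj x y) ∨
      (∃ j, e1 j = b ∧ (Kk j).Adj x y ∧ x ∉ UH ∧ y ∉ UH ∧
        (sp (lab x) = (sy j).1 ∨ sp (lab x) = (sy j).2) ∧ ¬ (Rf G UH lab).Adj x y ∧
        (nb (Kk j) x).Nonempty) ∨
      (∃ j, e1 j = b ∧ (M1 j).Adj x y ∧ x ∉ UH ∧ y ∉ UH ∧ (Rf G UH lab).Adj x y ∧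
        ¬ (nb (Kk j) x).Nonempty ∧ x ∉ UW UH c0 tu e τ e1 tp wv b) := by
  rcases h with ⟨i, hi, h | h⟩ | ⟨j, hj, h | h⟩
  · have h1 := hN.adj i _ _ h
    have h2 := hN.adj i _ _ h.symm
    exact Or.inl ⟨i, hi, h, h1.1, h2.1, h1.2.1, nb_ne h, h1.2.2.2⟩
  · have h1 := hP.le i _ _ h
    exact Or.inr (Or.inl ⟨i, hi, h, h1.1.2.1, h1.1.2.2.1, h1.2, h1.1⟩)
  · have h1 := hL.mem j _ _ h
    have h2 := hL.mem j _ _ h.symm
    exact Or.inr (Or.inr (Or.inl ⟨j, hj, h, h1.1, h2.1, h1.2.2, h1.2.1, nb_ne h⟩))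
  · have h1 := hE.le j _ _ h
    refine Or.inr (Or.inr (Or.inr ⟨j, hj, h, h1.1.2.1, h1.1.2.2.1, h1.1, h1.2.2, ?_⟩))
    rw [← hj]
    exact h1.2.1

/-- all pairs -/
theorem typ (hH : HPre G UH c0 EH tu) (hU : UPar G d δ UH c0 tu lab e τ e1 sy tp c wv)
    (hN : NDec ν G UH lab τ Nd)
    (hP : P0R g G d UH c0 tu lab e τ ρ e1 tp c wv Nd M O)
    (hL : Lft G UH lab sy Nd M Kk) (hE : PeR G UH c0 tu lab e τ e1 tp wv Kk M O M1 O1)
    {b : Fin k} {x y : V} (h : MA UH c0 tu EH e τ e1 tp wv Nd M Kk M1 b x y) :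
    (x ∉ UH ∧ y ∉ UH ∧ ((∃ i, e i = b ∧ ((Nd i).Adj x y ∨ (M i).Adj x y)) ∨
      (∃ j, e1 j = b ∧ ((Kk j).Adj x y ∨ (M1 j).Adj x y)))) ∨
    (x ∈ UH ∧ y ∉ UH ∧ US UH c0 tu e τ e1 tp wv b x y) ∨
    (x ∉ UH ∧ y ∈ UH ∧ US UH c0 tu e τ e1 tp wv b y x) ∨
    (x ∈ UH ∧ y ∈ UH ∧ EH.Adj x y ∧ tu x = b) := by
  rcases h with ⟨i, hi, h⟩ | ⟨j, hj, h⟩ | h | h | h
  · refine Or.inl ⟨?_, ?_, Or.inl ⟨i, hi, h⟩⟩
    · exact h.elim (fun h => (hN.adj i _ _ h).1) (fun h => (hP.le i _ _ h).1.2.1)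
    · exact h.elim (fun h => (hN.adj i _ _ h.symm).1) (fun h => (hP.le i _ _ h).1.2.2.1)
  · refine Or.inl ⟨?_, ?_, Or.inr ⟨j, hj, h⟩⟩
    · exact h.elim (fun h => (hL.mem j _ _ h).1) (fun h => (hE.le j _ _ h).1.2.1)
    · exact h.elim (fun h => (hL.mem j _ _ h.symm).1) (fun h => (hE.le j _ _ h).1.2.2.1)
  · exact Or.inr (Or.inl ⟨h.1, (US_fact hU h).2.1, h⟩)
  · exact Or.inr (Or.inr (Or.inl ⟨(US_fact hU h).2.1, h.1, h⟩))
  · exact Or.inr (Or.inr (Or.inr ⟨hH.EU _ _ h.1, hH.EU _ _ h.1.symm, h.1, h.2⟩))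

/-- all edges are edges of `G` -/
theorem MA_le (hH : HPre G UH c0 EH tu) (hU : UPar G d δ UH c0 tu lab e τ e1 sy tp c wv)
    (hN : NDec ν G UH lab τ Nd)
    (hP : P0R g G d UH c0 tu lab e τ ρ e1 tp c wv Nd M O)
    (hL : Lft G UH lab sy Nd M Kk) (hE : PeR G UH c0 tu lab e τ e1 tp wv Kk M O M1 O1)
    {b : Fin k} {x y : V} (h : MA UH c0 tu EH e τ e1 tp wv Nd M Kk M1 b x y) : G.Adj x y := by
  rcases h with ⟨i, hi, h | h⟩ | ⟨j, hj, h | h⟩ | h | h | h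
  · exact hN.le i h
  · exact (hP.le i _ _ h).1.1
  · exact hL.le j h
  · exact (hE.le j _ _ h).1.1
  · exact (US_fact hU h).1
  · exact (US_fact hU h).1.symm
  · exact hH.EG h.1

/-- a vertex outside `UH`: partner edges and other edges of the same colour are excluded -/
theorem o_ne (hU : UPar G d δ UH c0 tu lab e τ e1 sy tp c wv)
    (he : Function.Injective e) (hee : ∀ x y, e x ≠ e1 y) (hN : NDec ν G UH lab τ Nd)
    (hP : P0R g G d UH c0 tu lab e τ ρ e1 tp c wv Nd M O)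
    (hL : Lft G UH lab sy Nd M Kk) (hE : PeR G UH c0 tu lab e τ e1 tp wv Kk M O M1 O1)
    {b : Fin k} {x y z : V}
    (h : (∃ i, e i = b ∧ ((Nd i).Adj x y ∨ (M i).Adj x y)) ∨
      (∃ j, e1 j = b ∧ ((Kk j).Adj x y ∨ (M1 j).Adj x y)))
    (h' : US UH c0 tu e τ e1 tp wv b z x) : False := by
  rcases typ_o hN hP hL hE h with ⟨i, rfl, h, a1, a2, a3, a4, a5⟩ |
    ⟨i, rfl, h, a1, a2, a3, a4⟩ | ⟨j, rfl, h, a1, a2, a3, a4, a5⟩ |
    ⟨j, rfl, h, a1, a2, a3, a4, a5⟩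
  · exact a3 (US_cel hU he hee h').1
  · rcases mem_Ub.mp a3 with h3 | h3
    · exact h3.2.2.2.2 (mem_UW.mpr ⟨z, h'⟩)
    · exact h3.2.2.1 (US_cel hU he hee h').1
  · exact US_lam hU h' a3
  · exact a5 (mem_UW.mpr ⟨z, h'⟩)

/-- uniqueness outside `UH` -/
theorem o_uniq (he : Function.Injective e) (he1 : Function.Injective e1)
    (hee : ∀ x y, e x ≠ e1 y) (hN : NDec ν G UH lab τ Nd)
    (hP : P0R g G d UH c0 tu lab e τ ρ e1 tp c wv Nd M O)
    (hL : Lft G UH lab sy Nd M Kk) (hE : PeR G UH c0 tu lab e τ e1 tp wv Kk M O M1 O1)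
    {b : Fin k} {x y z : V}
    (h : (∃ i, e i = b ∧ ((Nd i).Adj x y ∨ (M i).Adj x y)) ∨
      (∃ j, e1 j = b ∧ ((Kk j).Adj x y ∨ (M1 j).Adj x y)))
    (h' : (∃ i, e i = b ∧ ((Nd i).Adj x z ∨ (M i).Adj x z)) ∨
      (∃ j, e1 j = b ∧ ((Kk j).Adj x z ∨ (M1 j).Adj x z))) : y = z := by
  have key : ∀ {y z : V} {i : Ix m w}, (Nd i).Adj x y → (M i).Adj x z → False := by
    intro y z i h1 h2
    have h3 := hN.adj i _ _ h1
    rcases mem_Ub.mp (hP.le i _ _ h2).2 with h4 | h4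
    · exact h3.2.1 h4.2.2.1
    · exact h4.2.2.2 (nb_ne h1)
  have key1 : ∀ {y z : V} {j : Fin W1}, (Kk j).Adj x y → (M1 j).Adj x z → False := by
    intro y z j h1 h2
    exact (hE.le j _ _ h2).2.2 (nb_ne h1)
  rcases h with ⟨i, rfl, h⟩ | ⟨j, rfl, h⟩ <;> rcases h' with ⟨i', hi', h'⟩ | ⟨j', hj', h'⟩
  · have h2 := he hi'
    subst h2
    rcases h with h | h <;> rcases h' with h' | h'
    · exact mat_eq (hN.mat i') h h'
    · exact (key h h').elim
    · exact (key h' h).elim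
    · exact mat_eq (hP.mat i') h h'
  · exact absurd hj'.symm (hee _ _)
  · exact absurd hi' (hee _ _)
  · have h2 := he1 hj'
    subst h2
    rcases h with h | h <;> rcases h' with h' | h'
    · exact mat_eq (hL.mat j') h h'
    · exact (key1 h h').elim
    · exact (key1 h' h).elim
    · exact mat_eq (hE.mat j') h h'

/-- uniqueness -/
theorem MA_uniq (hH : HPre G UH c0 EH tu) (hU : UPar G d δ UH c0 tu lab e τ e1 sy tp c wv)
    (he : Function.Injective e) (he1 : Function.Injective e1)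
    (hee : ∀ x y, e x ≠ e1 y) (hN : NDec ν G UH lab τ Nd)
    (hP : P0R g G d UH c0 tu lab e τ ρ e1 tp c wv Nd M O)
    (hL : Lft G UH lab sy Nd M Kk) (hE : PeR G UH c0 tu lab e τ e1 tp wv Kk M O M1 O1)
    {b : Fin k} {x y z : V} (h : MA UH c0 tu EH e τ e1 tp wv Nd M Kk M1 b x y)
    (h' : MA UH c0 tu EH e τ e1 tp wv Nd M Kk M1 b x z) : y = z := by
  rcases typ hH hU hN hP hL hE h with ⟨a1, a2, h⟩ | ⟨a1, a2, h⟩ | ⟨a1, a2, h⟩ |
    ⟨a1, a2, h, h0⟩ <;>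
  rcases typ hH hU hN hP hL hE h' with ⟨b1, b2, h'⟩ | ⟨b1, b2, h'⟩ | ⟨b1, b2, h'⟩ |
    ⟨b1, b2, h', h0'⟩
  · exact o_uniq he he1 hee hN hP hL hE h h'
  · exact absurd b1 a1
  · exact (o_ne hU he hee hN hP hL hE h h').elim
  · exact absurd b1 a1
  · exact absurd a1 b1
  · exact US_left h h'
  · exact absurd a1 b1
  · exact absurd h0'.symm h.2.2.2.1
  · exact (o_ne hU he hee hN hP hL hE h' h).elim
  · exact absurd b1 a1
  · exact US_right hU h h'
  · exact absurd b1 a1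
  · exact absurd a1 b1
  · exact absurd h0.symm h'.2.2.2.1
  · exact absurd a1 b1
  · exact mat_eq hH.mat h h'

/-- the colours of an edge outside `UH` are equal -/
theorem o_col (hl : 3 ≤ l) (hN : NDec ν G UH lab τ Nd)
    (hP : P0R g G d UH c0 tu lab e τ ρ e1 tp c wv Nd M O)
    (hL : Lft G UH lab sy Nd M Kk) (hE : PeR G UH c0 tu lab e τ e1 tp wv Kk M O M1 O1)
    {b b' : Fin k} {x y : V}
    (h : (∃ i, e i = b ∧ ((Nd i).Adj x y ∨ (M i).Adj x y)) ∨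
      (∃ j, e1 j = b ∧ ((Kk j).Adj x y ∨ (M1 j).Adj x y)))
    (h' : (∃ i, e i = b' ∧ ((Nd i).Adj x y ∨ (M i).Adj x y)) ∨
      (∃ j, e1 j = b' ∧ ((Kk j).Adj x y ∨ (M1 j).Adj x y))) : b = b' := by
  have hty : ∀ {i : Ix m w}, (Nd i).Adj x y → rr (cr (lab x)) (cr (lab y)) → False := by
    intro i h1 h2
    rcases (hN.adj i _ _ h1).2.2.2 with ⟨j, _, h3⟩ | ⟨_, h3, _⟩
    · exact tj_not_rr hl h3 h2
    · exact h3 h2
  have k1 : ∀ {i i' : Ix m w}, (Nd i).Adj x y → (M i').Adj x y → False := by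
    intro i i' h1 h2
    exact hty h1 (hP.le i' _ _ h2).1.2.2.2.2
  have k2 : ∀ {i : Ix m w} {j : Fin W1}, (Nd i).Adj x y → (M1 j).Adj x y → False := by
    intro i j h1 h2
    exact hty h1 (Or.inl (hE.le j _ _ h2).1.2.2.2.2)
  have k3 : ∀ {j j' : Fin W1}, (Kk j).Adj x y → (M1 j').Adj x y → False := by
    intro j j' h1 h2
    exact (hL.mem j _ _ h1).2.1 (hE.le j' _ _ h2).1
  have k4 : ∀ {i : Ix m w} {j : Fin W1}, ((Nd i).Adj x y ∨ (M i).Adj x y) →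
      ((Kk j).Adj x y ∨ (M1 j).Adj x y) → False := by
    intro i j h1 h2
    rcases h1 with h1 | h1 <;> rcases h2 with h2 | h2
    · exact (hL.new j _ _ h2 i).1 h1
    · exact k2 h1 h2
    · exact (hL.new j _ _ h2 i).2 h1
    · exact hE.new j _ _ h2 i h1
  by_contra hne
  rcases h with ⟨i, rfl, h⟩ | ⟨j, rfl, h⟩ <;> rcases h' with ⟨i', rfl, h'⟩ | ⟨j', rfl, h'⟩
  · have hii : i ≠ i' := fun h0 => hne (by rw [h0])
    rcases h with h | h <;> rcases h' with h' | h'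
    · exact hN.dis i i' hii _ _ h h'
    · exact k1 h h'
    · exact k1 h' h
    · exact hP.dis i i' hii _ _ h h'
  · exact k4 h h'
  · exact k4 h' h
  · have hjj : j ≠ j' := fun h0 => hne (by rw [h0])
    rcases h with h | h <;> rcases h' with h' | h'
    · exact hL.dis j j' hjj _ _ h h'
    · exact k3 h h'
    · exact k3 h' h
    · exact hE.dis j j' hjj _ _ h h'

/-- the colours of an edge are equal -/
theorem MA_col (hl : 3 ≤ l) (hH : HPre G UH c0 EH tu)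
    (hU : UPar G d δ UH c0 tu lab e τ e1 sy tp c wv) (hN : NDec ν G UH lab τ Nd)
    (hP : P0R g G d UH c0 tu lab e τ ρ e1 tp c wv Nd M O)
    (hL : Lft G UH lab sy Nd M Kk) (hE : PeR G UH c0 tu lab e τ e1 tp wv Kk M O M1 O1)
    {b b' : Fin k} {x y : V} (h : MA UH c0 tu EH e τ e1 tp wv Nd M Kk M1 b x y)
    (h' : MA UH c0 tu EH e τ e1 tp wv Nd M Kk M1 b' x y) : b = b' := by
  rcases typ hH hU hN hP hL hE h with ⟨a1, a2, h⟩ | ⟨a1, a2, h⟩ | ⟨a1, a2, h⟩ |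
    ⟨a1, a2, h, h0⟩ <;>
  rcases typ hH hU hN hP hL hE h' with ⟨b1, b2, h'⟩ | ⟨b1, b2, h'⟩ | ⟨b1, b2, h'⟩ |
    ⟨b1, b2, h', h0'⟩
  · exact o_col hl hN hP hL hE h h'
  · exact absurd b1 a1
  · exact absurd b2 a2
  · exact absurd b1 a1
  · exact absurd a1 b1
  · exact US_col hU h h'
  · exact absurd a1 b1
  · exact absurd b2 a2
  · exact absurd a2 b2
  · exact absurd b1 a1
  · exact US_col hU h h'
  · exact absurd b1 a1
  · exact absurd a1 b1
  · exact absurd a2 b2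
  · exact absurd a1 b1
  · rw [← h0, ← h0']

/-- the colour of a vertex outside `UH` -/
theorem c_cell (he : Function.Injective e) (hC : VCol G UH c0 lab e τ pal c) {i : Ix m w}
    {x : V} (hx : x ∉ UH) (hx3 : ce (lab x) ∉ c3 i.1 i.2.1) : c x ≠ e i := by
  intro hxc
  obtain ⟨p, hp, _⟩ := hC.cP x hx
  rw [hxc] at hp
  have h1 := he hp
  apply hx3
  rw [mem_c3, h1]
  exact Or.inl rfl

/-- the colour of an edge is not the colour of its ends -/
theorem MA_c (hH : HPre G UH c0 EH tu) (he : Function.Injective e) (hee : ∀ x y, e x ≠ e1 y)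
    (hC : VCol G UH c0 lab e τ pal c)
    (hU : UPar G d δ UH c0 tu lab e τ e1 sy tp c wv) (hN : NDec ν G UH lab τ Nd)
    (hP : P0R g G d UH c0 tu lab e τ ρ e1 tp c wv Nd M O)
    (hL : Lft G UH lab sy Nd M Kk) (hE : PeR G UH c0 tu lab e τ e1 tp wv Kk M O M1 O1)
    {b : Fin k} {x y : V} (h : MA UH c0 tu EH e τ e1 tp wv Nd M Kk M1 b x y) : c x ≠ b := by
  have hne : ∀ {j : Fin W1}, x ∉ UH → c x ≠ e1 j := by
    intro j hx hxc
    obtain ⟨p, hp, _⟩ := hC.cP x hx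
    rw [hxc] at hp
    exact hee _ _ hp.symm
  rcases typ hH hU hN hP hL hE h with ⟨a1, a2, h⟩ | ⟨a1, a2, h⟩ | ⟨a1, a2, h⟩ |
    ⟨a1, a2, h, h0⟩
  · rcases typ_o hN hP hL hE h with ⟨i, rfl, h, _, _, a3, a4, a5⟩ |
      ⟨i, rfl, h, _, _, a3, a4⟩ | ⟨j, rfl, h, _, _, a3, a4, a5⟩ |
      ⟨j, rfl, h, _, _, a3, a4, a5⟩
    · exact c_cell he hC a1 a3
    · rcases mem_Ub.mp a3 with h3 | h3
      · exact h3.2.2.2.1
      · exact c_cell he hC a1 h3.2.2.1
    · exact hne a1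
    · exact hne a1
  · rw [hC.cU x a1]
    exact h.2.2.1.symm
  · exact (US_fact hU h).2.2
  · rw [hC.cU x a1, ← h0]
    exact (hH.ct x a1).symm

/-- the palette of the part `i` -/
noncomputable def Qi (e : Ix m w → Fin k) (τ : Fin w → Option (ZMod 3)) (i : ZMod 3) :
    Finset (Fin k) := (univ.filter (fun x : Ix m w => τ x.2.2 = some i)).image e

theorem mem_Qi {i : ZMod 3} {b : Fin k} : b ∈ Qi e τ i ↔ ∃ x : Ix m w, τ x.2.2 = some i ∧
    e x = b := by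
  unfold Qi
  rw [mem_image]
  constructor
  · rintro ⟨x, hx, h⟩
    exact ⟨x, (mem_filter.mp hx).2, h⟩
  · rintro ⟨x, hx, h⟩
    exact ⟨x, mem_filter.mpr ⟨mem_univ _, hx⟩, h⟩

/-- the class of a vertex -/
noncomputable def pi3 (UH : Finset V) (lab : V → Lh l m r K K1 S) (tp : V → ZMod 3) (v : V) :
    ZMod 3 := if v ∈ UH then tp v else pt (lab v)

theorem notQ {i : ZMod 3} (he : Function.Injective e) {x : Ix m w} (h : τ x.2.2 ≠ some i) :
    e x ∉ Qi e τ i := by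
  intro h'
  obtain ⟨x', h1, h2⟩ := mem_Qi.mp h'
  rw [he h2] at h1
  exact h h1

theorem notQ1 {i : ZMod 3} (hee : ∀ x y, e x ≠ e1 y) {j : Fin W1} : e1 j ∉ Qi e τ i := by
  intro h'
  obtain ⟨x', h1, h2⟩ := mem_Qi.mp h'
  exact hee _ _ h2

theorem ty_part {τ0 : Option (ZMod 3)} {c1 c2 : Cr l S} (h : ty ν τ0 c1 c2) :
    τ0 ≠ some c1.2.1 := by
  rcases h with ⟨j, h1, h2⟩ | ⟨h1, _⟩
  · intro h3
    exact h2.1 (Option.some_inj.mp (h3.symm.trans h1))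
  · rw [h1]
    simp

/-- the colour of an edge is not in the palette of its ends -/
theorem MA_Q (hH : HPre G UH c0 EH tu) (he : Function.Injective e) (hee : ∀ x y, e x ≠ e1 y)
    (htp : ∀ u ∈ UH, ∀ x, τ x.2.2 = some (tp u) → e x ≠ c0 u ∧ e x ≠ tu u)
    (hU : UPar G d δ UH c0 tu lab e τ e1 sy tp c wv) (hN : NDec ν G UH lab τ Nd)
    (hP : P0R g G d UH c0 tu lab e τ ρ e1 tp c wv Nd M O)
    (hL : Lft G UH lab sy Nd M Kk) (hE : PeR G UH c0 tu lab e τ e1 tp wv Kk M O M1 O1)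
    {b : Fin k} {x y : V} (h : MA UH c0 tu EH e τ e1 tp wv Nd M Kk M1 b x y) :
    b ∉ Qi e τ (pi3 UH lab tp x) := by
  unfold pi3
  rcases typ hH hU hN hP hL hE h with ⟨a1, a2, h⟩ | ⟨a1, a2, h⟩ | ⟨a1, a2, h⟩ |
    ⟨a1, a2, h, h0⟩
  · rw [if_neg a1]
    rcases typ_o hN hP hL hE h with ⟨i, rfl, h, _, _, a3, a4, a5⟩ |
      ⟨i, rfl, h, _, _, a3, a4⟩ | ⟨j, rfl, h, _, _, a3, a4, a5⟩ |
      ⟨j, rfl, h, _, _, a3, a4, a5⟩
    · exact notQ he (ty_part a5)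
    · rcases mem_Ub.mp a3 with h3 | h3
      · exact notQ he h3.2.1
      · exact notQ he h3.2.1
    · exact notQ1 hee
    · exact notQ1 hee
  · rw [if_pos a1]
    rcases h.2.1 with ⟨i, rfl, hi2⟩ | ⟨j, rfl⟩
    · exact notQ he hi2
    · exact notQ1 hee
  · rw [if_neg a1]
    rcases h.2.1 with ⟨i, rfl, hi2⟩ | ⟨j, rfl⟩
    · exact notQ he (US_cel hU he hee h).2
    · exact notQ1 hee
  · rw [if_pos a1]
    intro h1
    obtain ⟨i, h2, h3⟩ := mem_Qi.mp h1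
    exact (htp x a1 i h2).2 (h3.trans h0.symm)

/-- covering, vertices of `UH` -/
theorem cov_U (hH : HPre G UH c0 EH tu) {b : Fin k} {x : V} (hx : x ∈ UH)
    (hb : Vd e τ e1 (tp x) b) (hbx : b ≠ c0 x) :
    ∃ y, MA UH c0 tu EH e τ e1 tp wv Nd M Kk M1 b x y := by
  by_cases hbt : b = tu x
  · obtain ⟨y, hy⟩ := hH.cov x hx
    exact ⟨y, Or.inr (Or.inr (Or.inr (Or.inr ⟨hy, hbt.symm⟩)))⟩
  · exact ⟨_, Or.inr (Or.inr (Or.inl ⟨hx, hb, hbx, hbt, rfl⟩))⟩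

/-- covering in the colours `e i` -/
theorem cov_e (hP : P0R g G d UH c0 tu lab e τ ρ e1 tp c wv Nd M O) {i : Ix m w} {x : V}
    (hx : x ∉ UH) (hxp : τ i.2.2 ≠ some (pt (lab x))) (hxc : c x ≠ e i) (hxO : x ∉ O i) :
    ∃ y, MA UH c0 tu EH e τ e1 tp wv Nd M Kk M1 (e i) x y := by
  by_cases hx3 : ce (lab x) ∈ c3 i.1 i.2.1
  · by_cases hxU : x ∈ UW UH c0 tu e τ e1 tp wv (e i)
    · obtain ⟨y, hy⟩ := mem_UW.mp hxU
      exact ⟨y, Or.inr (Or.inr (Or.inr (Or.inl hy)))⟩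
    · obtain ⟨y, hy⟩ := hP.cov i x (mem_Ub.mpr (Or.inl ⟨hx, hxp, hx3, hxc, hxU⟩)) hxO
      exact ⟨y, Or.inl ⟨i, rfl, Or.inr (mem_nb.mp hy)⟩⟩
  · by_cases hxN : (nb (Nd i) x).Nonempty
    · obtain ⟨y, hy⟩ := hxN
      exact ⟨y, Or.inl ⟨i, rfl, Or.inl (mem_nb.mp hy)⟩⟩
    · obtain ⟨y, hy⟩ := hP.cov i x (mem_Ub.mpr (Or.inr ⟨hx, hxp, hx3, hxN⟩)) hxO
      exact ⟨y, Or.inl ⟨i, rfl, Or.inr (mem_nb.mp hy)⟩⟩

/-- covering in the colours `e1 j` -/
theorem cov_e1 (hE : PeR G UH c0 tu lab e τ e1 tp wv Kk M O M1 O1) {j : Fin W1} {x : V}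
    (hx : x ∉ UH) (hxO : x ∉ O1 j) :
    ∃ y, MA UH c0 tu EH e τ e1 tp wv Nd M Kk M1 (e1 j) x y := by
  by_cases hxU : x ∈ UW UH c0 tu e τ e1 tp wv (e1 j)
  · obtain ⟨y, hy⟩ := mem_UW.mp hxU
    exact ⟨y, Or.inr (Or.inr (Or.inr (Or.inl hy)))⟩
  · by_cases hxN : (nb (Kk j) x).Nonempty
    · obtain ⟨y, hy⟩ := hxN
      exact ⟨y, Or.inr (Or.inl ⟨j, rfl, Or.inl (mem_nb.mp hy)⟩)⟩
    · obtain ⟨y, hy⟩ := hE.cov j x hx hxU hxN hxO
      exact ⟨y, Or.inr (Or.inl ⟨j, rfl, Or.inr (mem_nb.mp hy)⟩)⟩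

end mats

end Pool.Agent.Work.MP_db9399_lh.helper35.ASM

namespace Pool.Agent.Work.MP_db9399_lh.helper35

open Finset Classical
open Pool.Agent.Work.MP_db9399_bg (mem_nb mem_c3 LabP Lbl c3f c3 rs eR Ix HPre Spr inW
  not_rs_of_inW)
open Pool.Agent.Work.MP_db9399_all (nb)
open Pool.Agent.Work.MP_db9399_dn (NB IsMat Tot)
open Pool.Agent.Work.MP_db9399_lc.helper6 (not_rs_Y not_rs_B)
open ASM

universe u

theorem stmt_ASM : Stmt_ASM.{u} := by
  intro V _ l m r K K1 S g δ G d k w W1 ν UH c0 EH tu lab e τ ρ e1 sy tp pal c wv Nd M O Kk M1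
    O1 hl hdeg hdk hH he he1 hee htp _ hC hU hN hP hL hE
  have hT : ∀ b, b ∈ univ.filter (fun b => b ∈ Set.range e ∨ b ∈ Set.range e1) ↔
      (b ∈ Set.range e ∨ b ∈ Set.range e1) := by
    intro b
    simp only [Finset.mem_filter, Finset.mem_univ, true_and]
  have hTc : (univ.filter (fun b => b ∈ Set.range e ∨ b ∈ Set.range e1)).card = d + 2 := by
    have h1 : (univ.filter (fun b => b ∈ Set.range e ∨ b ∈ Set.range e1)) =
        (univ : Finset (Ix m w)).image e ∪ (univ : Finset (Fin W1)).image e1 := by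
      ext b
      simp
    rw [h1, card_union_of_disjoint, card_image_of_injective _ he, card_image_of_injective _ he1,
      card_univ, card_univ, Fintype.card_fin, ← hdk]
    · congr 1
      rw [Fintype.card_prod, Fintype.card_prod, Fintype.card_fin, Fintype.card_fin, ZMod.card]
    · rw [disjoint_left]
      intro b hb hb'
      obtain ⟨i, _, hi⟩ := mem_image.mp hb
      obtain ⟨j, _, hj⟩ := mem_image.mp hb'
      exact hee i j (hi.trans hj.symm)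
  have hadj : ∀ x y, x ∉ UH → y ∉ UH → G.Adj x y → ¬ rf (cr (lab x)) (cr (lab y)) →
      ∃ b, MA UH c0 tu EH e τ e1 tp wv Nd M Kk M1 b x y := by
    intro x y hx hy hxy hr
    rcases hL.all x y hx hy hxy (fun h => hr h.2.2.2.2) with ⟨i, hi⟩ | ⟨i, hi⟩ | ⟨j, hj⟩
    · exact ⟨e i, Or.inl ⟨i, rfl, Or.inl hi⟩⟩
    · exact ⟨e i, Or.inl ⟨i, rfl, Or.inr hi⟩⟩
    · exact ⟨e1 j, Or.inr (Or.inl ⟨j, rfl, Or.inl hj⟩)⟩
  have hsat : ∀ x y, x ∈ UH → y ∉ UH → G.Adj x y → (pt (lab y) ≠ tp x ∨ inM (lab y)) →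
      ∃ b, MA UH c0 tu EH e τ e1 tp wv Nd M Kk M1 b x y := by
    intro x y hx hy hxy h
    obtain ⟨i, h0, h1, h2, h3⟩ := hU.sat x hx y hxy hy h
    exact ⟨e i, Or.inr (Or.inr (Or.inl ⟨hx, Or.inl ⟨i, rfl, h0⟩, h1, h2, h3⟩))⟩
  suffices hsuff : ∃ t : V → V → Fin k, Tot G c t ∧
      ∀ b v w, MA UH c0 tu EH e τ e1 tp wv Nd M Kk M1 b v w → t v w = b by
    obtain ⟨t, ht, hM⟩ := hsuff
    refine ⟨t, ht, ?_⟩
    intro x y hxy
    exact hM (tu x) x y (Or.inr (Or.inr (Or.inr (Or.inr ⟨hxy, rfl⟩))))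
  refine core3 G c
    (univ.filter (fun b => b ∈ Set.range e ∨ b ∈ Set.range e1)) (Qi e τ) (pi3 UH lab tp)
    (univ.filter (fun x => x ∉ UH ∧ inM (lab x)))
    (univ.filter (fun x => x ∉ UH ∧ inW (lab x).1))
    (univ.filter (fun x => x ∉ UH ∧ l + 2 ≤ (lab x).1.2.1.val))
    (fun b => { Adj := MA UH c0 tu EH e τ e1 tp wv Nd M Kk M1 b
                symm := ⟨fun x y h => MA_symm hH h⟩
                loopless := ⟨fun x h => G.loopless.irrefl x (MA_le hH hU hN hP hL hE h)⟩ })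
    hdeg hTc ?_ hC.adj ?_ ?_ ?_ ?_ ?_ ?_ ?_ ?_ ?_ ?_ ?_ ?_ ?_
  · intro i b hb
    rw [hT]
    obtain ⟨x, _, hx⟩ := mem_Qi.mp hb
    exact Or.inl ⟨x, hx⟩
  · intro x
    unfold pi3
    by_cases hx : x ∈ UH
    · rw [if_pos hx, hC.cU x hx]
      intro h
      obtain ⟨i, h1, h2⟩ := mem_Qi.mp h
      exact (htp x hx i h1).1 h2
    · rw [if_neg hx]
      obtain ⟨p, hp, _, h2⟩ := hC.cP x hx
      rw [hp]
      apply notQ he
      rw [h2]
      simp
  · intro b x y h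
    exact MA_le hH hU hN hP hL hE h
  · intro b x y h
    exact MA_Q hH he hee htp hU hN hP hL hE h
  · intro b x
    rw [Finset.card_le_one]
    intro y hy z hz
    exact MA_uniq hH hU he he1 hee hN hP hL hE (mem_nb.mp hy) (mem_nb.mp hz)
  · intro b b' hne x y h h'
    exact hne (MA_col hl hH hU hN hP hL hE h h')
  · intro b x y h
    exact MA_c hH he hee hC hU hN hP hL hE h
  · intro x hx b hb hbc
    obtain ⟨hb, hbQ⟩ := mem_sdiff.mp hb
    rw [hT] at hb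
    have hcov : ∃ y, MA UH c0 tu EH e τ e1 tp wv Nd M Kk M1 b x y := by
      by_cases hxU : x ∈ UH
      · unfold pi3 at hbQ
        rw [if_pos hxU] at hbQ
        refine cov_U hH hxU ?_ (by rw [← hC.cU x hxU]; exact hbc)
        rcases hb with ⟨i, hi⟩ | hb
        · exact Or.inl ⟨i, hi, fun h => hbQ (mem_Qi.mpr ⟨i, h, hi⟩)⟩
        · exact Or.inr hb
      · unfold pi3 at hbQ
        rw [if_neg hxU] at hbQ
        have hxW : ¬ inM (lab x) := by
          intro h0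
          exact hx (Finset.mem_filter.mpr ⟨Finset.mem_univ _, hxU, h0⟩)
        rcases hb with ⟨i, rfl⟩ | ⟨j, rfl⟩
        · exact cov_e hP hxU (fun h => hbQ (mem_Qi.mpr ⟨i, h, rfl⟩)) hbc.symm
            (fun h0 => hxW (hP.OU i x h0).2.2.2)
        · exact cov_e1 hE hxU (fun h0 => hxW (hE.OW j x h0).2)
    obtain ⟨y, hy⟩ := hcov
    exact ⟨y, mem_nb.mpr hy⟩
  · intro x hx
    have hxU : x ∉ UH := (Finset.mem_filter.mp hx).2.1
    have hpart : ∀ b ∈ (univ.filter (fun b => b ∈ Set.range e ∨ b ∈ Set.range e1)) \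
        Qi e τ (pi3 UH lab tp x), (∃ i, e i = b ∧ τ i.2.2 ≠ some (pt (lab x))) ∨
        ∃ j, e1 j = b := by
      intro b hb
      obtain ⟨hb, hbQ⟩ := mem_sdiff.mp hb
      rw [hT] at hb
      unfold pi3 at hbQ
      rw [if_neg hxU] at hbQ
      rcases hb with ⟨i, rfl⟩ | ⟨j, rfl⟩
      · exact Or.inl ⟨i, rfl, fun h => hbQ (mem_Qi.mpr ⟨i, h, rfl⟩)⟩
      · exact Or.inr ⟨j, rfl⟩
    by_cases h0 : ∃ i, x ∈ O i
    · obtain ⟨i0, hi0⟩ := h0
      refine ⟨e i0, ?_⟩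
      intro b hb hbc hb0
      have hcov : ∃ y, MA UH c0 tu EH e τ e1 tp wv Nd M Kk M1 b x y := by
        rcases hpart b hb with ⟨i, rfl, hip⟩ | ⟨j, rfl⟩
        · refine cov_e hP hxU hip hbc.symm (fun h1 => ?_)
          have hne : i0 ≠ i := fun h2 => hb0 (by rw [h2])
          exact Finset.disjoint_left.mp (hP.Od i0 i hne) hi0 h1
        · exact cov_e1 hE hxU (fun h1 => Finset.disjoint_left.mp (hE.Od j i0) h1 hi0)
      obtain ⟨y, hy⟩ := hcov
      exact ⟨y, mem_nb.mpr hy⟩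
    · push Not at h0
      by_cases h2 : ∃ j, x ∈ O1 j
      · obtain ⟨j0, hj0⟩ := h2
        refine ⟨e1 j0, ?_⟩
        intro b hb hbc hb0
        have hcov : ∃ y, MA UH c0 tu EH e τ e1 tp wv Nd M Kk M1 b x y := by
          rcases hpart b hb with ⟨i, rfl, hip⟩ | ⟨j, rfl⟩
          · exact cov_e hP hxU hip hbc.symm (h0 i)
          · refine cov_e1 hE hxU (fun h1 => ?_)
            have hne : j0 ≠ j := fun h2 => hb0 (by rw [h2])
            exact Finset.disjoint_left.mp (hE.O1d j0 j hne) hj0 h1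
        obtain ⟨y, hy⟩ := hcov
        exact ⟨y, mem_nb.mpr hy⟩
      · push Not at h2
        refine ⟨c x, ?_⟩
        intro b hb hbc _
        have hcov : ∃ y, MA UH c0 tu EH e τ e1 tp wv Nd M Kk M1 b x y := by
          rcases hpart b hb with ⟨i, rfl, hip⟩ | ⟨j, rfl⟩
          · exact cov_e hP hxU hip hbc.symm (h0 i)
          · exact cov_e1 hE hxU (h2 j)
        obtain ⟨y, hy⟩ := hcov
        exact ⟨y, mem_nb.mpr hy⟩
  · rw [Finset.disjoint_left]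
    intro x hx hy
    have hx1 := (Finset.mem_filter.mp hx).2.2.2
    have hy1 := (Finset.mem_filter.mp hy).2.2
    omega
  · intro x hx y hy hxy
    have hx1 := (Finset.mem_filter.mp hx).2
    have hy1 := (Finset.mem_filter.mp hy).2
    refine hadj x y hx1.1 hy1.1 hxy (fun h => ?_)
    exact not_rs_of_inW hx1.2 hy1.2 h.2
  · intro x hx y hy hxy
    have hx1 := (Finset.mem_filter.mp hx).2
    have hy1 := (Finset.mem_filter.mp hy).2
    refine hadj x y hx1.1 hy1.1 hxy (fun h => ?_)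
    exact not_rs_Y hx1.2 hy1.2 h.2
  · intro x y hxy hxX hxY hy
    have hy1 := (Finset.mem_filter.mp hy).2
    by_cases hxU : x ∈ UH
    · exact hsat x y hxU hy1.1 hxy (Or.inr hy1.2)
    · refine hadj x y hxU hy1.1 hxy (fun h => ?_)
      have hx1 : ¬ inW (lab x).1 := fun h0 =>
        hxX (Finset.mem_filter.mpr ⟨Finset.mem_univ _, hxU, h0⟩)
      have hx2 : ¬ (l + 2 ≤ (lab x).1.2.1.val) := fun h0 =>
        hxY (Finset.mem_filter.mpr ⟨Finset.mem_univ _, hxU, h0⟩)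
      have h3 : (lab x).1.2.1.val = 0 ∨ (lab x).1.2.1.val = l + 1 := by
        unfold inW at hx1
        omega
      exact not_rs_B (t := (lab y).1) h3 hy1.2 h.2
  · intro x y hxy hne
    unfold pi3 at hne
    by_cases hxU : x ∈ UH <;> by_cases hyU : y ∈ UH
    · exact ⟨tu x, Or.inr (Or.inr (Or.inr (Or.inr ⟨hH.ind x hxU y hyU hxy, rfl⟩)))⟩
    · rw [if_pos hxU, if_neg hyU] at hne
      exact hsat x y hxU hyU hxy (Or.inl (fun h => hne h.symm))
    · rw [if_neg hxU, if_pos hyU] at hne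
      obtain ⟨b, hb⟩ := hsat y x hyU hxU hxy.symm (Or.inl hne)
      exact ⟨b, MA_symm hH hb⟩
    · rw [if_neg hxU, if_neg hyU] at hne
      exact hadj x y hxU hyU hxy (fun h => hne h.1)

end Pool.Agent.Work.MP_db9399_lh.helper35
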