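import Pool.Agent.Work.MP_db9399_lh_helper35.PAT

/-! THEOREM LCH, block ESX: signless expansion of the last pattern (helper35). -/

set_option autoImplicit false

namespace Pool.Agent.Work.MP_db9399_lh.helper35

open Finset Classical
open Pool.Agent.Work.MP_db9399_all (nb)
open Pool.Agent.Work.MP_db9399_bg (den cl Lbl c3f c3 rs rs_symm eR IsPat c3f_inj enP PN LabP
  mem_cl mem_PN)
open Pool.Agent.Work.MP_db9399_lc (BL)
open Pool.Agent.Work.MP_db9399_lh

universe u

variable {l m r K K1 S : ℕ}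

/-- the part `i` -/
noncomputable def Vp {V : Type u} [Fintype V] (lab : V → Lh l m r K K1 S) (i : ZMod 3) :
    Finset V := univ.filter (fun v => pt (lab v) = i)

theorem enP_part {V : Type u} [Fintype V] (G : SimpleGraph V) (lab : V → Lh l m r K K1 S)
    (i : ZMod 3) (A B : Finset V) :
    enP G lab (eP l m r K K1 S i) (eR l) A B =
      enP G lab (eP l m r K K1 S i) (eR l) (A ∩ Vp lab i) (B ∩ Vp lab i) := by
  have h1 : ∀ (A : Finset V) (b : ZMod (2 * l + 1)), A ∩ cl lab (eP l m r K K1 S i b) =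
      (A ∩ Vp lab i) ∩ cl lab (eP l m r K K1 S i b) := by
    intro A b
    ext v
    simp only [mem_inter, mem_cl, Vp, eP, mem_filter, mem_univ, true_and]
    tauto
  have h2 : ∀ (B : Finset V) (b : ZMod (2 * l + 1)) (v : V),
      (nb G v ∩ cl lab (PN (eP l m r K K1 S i) (eR l) b)) \ B =
      (nb G v ∩ cl lab (PN (eP l m r K K1 S i) (eR l) b)) \ (B ∩ Vp lab i) := by
    intro B b v
    ext w
    simp only [mem_sdiff, mem_inter, mem_cl, mem_PN, Vp, eP, mem_filter, mem_univ, true_and]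
    constructor
    · rintro ⟨h3, h4⟩
      exact ⟨h3, fun h5 => h4 h5.1⟩
    · rintro ⟨⟨h3, b', h4, h5, h6⟩, h7⟩
      exact ⟨⟨h3, b', h4, h5, h6⟩, fun h8 => h7 ⟨h8, h6⟩⟩
  unfold enP
  refine sum_congr rfl (fun b _ => ?_)
  rw [h1 A b, h1 B b]
  congr 1
  · exact sum_congr rfl (fun v _ => by rw [h2 B b v])
  · exact sum_congr rfl (fun v _ => by rw [h2 A b v])

theorem card_parts {V : Type u} [Fintype V] (lab : V → Lh l m r K K1 S) (A : Finset V) :
    ∑ i, (A ∩ Vp lab i).card = A.card := by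
  have h := card_eq_sum_card_fiberwise (s := A) (t := (univ : Finset (ZMod 3)))
    (f := fun v => pt (lab v)) (fun v _ => mem_univ _)
  rw [h]
  refine sum_congr rfl (fun i _ => ?_)
  congr 1
  ext v
  simp [Vp]

theorem stmt_ESX (hSXP : MP_db9399_lc.Stmt_SXP.{u}) : Stmt_ESX.{u} := by
  intro g l hg hl
  obtain ⟨c, hc0, hc1, hc⟩ := hSXP g 2 (2 * l + 1) (2 * l + 1) hg
  refine ⟨c, hc0, hc1, ?_⟩
  intro m r K K1 S hm
  obtain ⟨σ, c1, ε0, d0, h1, h2, h3, h4⟩ := hc (Fintype.card (Lh l m r K K1 S))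
    (Fintype.card_pos_iff.mpr ⟨((0, 0, 0, 0, 0, 0), 0, 0)⟩)
  refine ⟨σ, c1, ε0, d0, h1, h2, h3, ?_⟩
  intro V _ G d lab hd hB hL A B hAB
  have key : ∀ i : ZMod 3, c * qe l d * (((A ∩ Vp lab i).card : ℝ) + (B ∩ Vp lab i).card) ≤
      enP G lab (eP l m r K K1 S i) (eR l) A B := by
    intro i
    rw [enP_part G lab i A B]
    have h5 := h4 (eP l m r K K1 S i) (eR l) (1 / (3 * (2 * l + 1))) G d lab (A ∩ Vp lab i)
      (B ∩ Vp lab i) (pat_e (by omega) i) (by rw [ZMod.card]) rfl hd hB hL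
      (disjoint_of_subset_left inter_subset_left
        (disjoint_of_subset_right inter_subset_left hAB)) (by
        intro v hv
        rw [mem_cl, mem_biUnion]
        refine ⟨(lab v).1.2.1, mem_univ _, ?_⟩
        rw [mem_union, mem_inter, mem_inter] at hv
        have h6 : v ∈ Vp lab i := hv.elim (fun h => h.2) (fun h => h.2)
        unfold Vp at h6
        unfold eP
        rw [mem_filter] at h6 ⊢
        exact ⟨mem_univ _, rfl, h6.2⟩)
    have h6 : (((2 : ℕ) : ℝ) * (1 / (3 * (2 * (l : ℝ) + 1))) * (d : ℝ)) = qe l d := by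
      unfold qe
      have h2 : (2 * (l : ℝ) + 1) ≠ 0 := by positivity
      push_cast
      field_simp
    rw [h6] at h5
    exact h5
  have h7 := sum_le_sum (fun i (_ : i ∈ (univ : Finset (ZMod 3))) => key i)
  rw [← mul_sum, sum_add_distrib] at h7
  have h8 : ∑ i, ((A ∩ Vp lab i).card : ℝ) = A.card := by exact_mod_cast card_parts lab A
  have h9 : ∑ i, ((B ∩ Vp lab i).card : ℝ) = B.card := by exact_mod_cast card_parts lab B
  rw [h8, h9] at h7
  exact h7

end Pool.Agent.Work.MP_db9399_lh.helper35
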