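import Pool.Agent.Work.MP_db9399_lh.Base
import Pool.Agent.Work.MP_db9399_bg_helper43.PAT

/-! THEOREM LCH, block PAT: the patterns (helper35, from helper43). -/

set_option autoImplicit false

namespace Pool.Agent.Work.MP_db9399_lh.helper35

open Finset Classical
open Pool.Agent.Work.MP_db9399_bg (den cl Lbl c3f c3 rs rs_symm eR IsPat c3f_inj)
open Pool.Agent.Work.MP_db9399_bg.helper43 (WK WK_eR WK_ne card_rs)
open Pool.Agent.Work.MP_db9399_lh

variable {l m r K K1 S : ℕ}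

/-- the core pattern -/
def rcr {l S : ℕ} (τ : Option (ZMod 3)) (c c' : {c : Cr l S // τ ≠ some c.2.1}) : Prop :=
  rr c.1 c'.1

/-- walks of `eR` of the odd length `8 l + 5` -/
theorem WK_odd (l : ℕ) (b b' : ZMod (2 * l + 1)) : WK (eR l) (8 * l + 5) b b' := by
  have h1 := WK_eR l b 0
  have h2 : WK (eR l) 1 (0 : ZMod (2 * l + 1)) 0 :=
    WK.cons (Or.inl (by ring)) (WK.refl _ _)
  have h3 := WK.trans (WK.trans h1 h2) (WK_eR l 0 b')
  rwa [show 2 * (2 * l + 1) + 1 + 2 * (2 * l + 1) = 8 * l + 5 from by ring] at h3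

theorem WK_core (τ : Option (ZMod 3)) (c c' : {c : Cr l S // τ ≠ some c.2.1}) :
    WK (rcr τ) (8 * l + 6) c c' := by
  obtain ⟨⟨lam, p, s⟩, hc⟩ := c
  obtain ⟨⟨lam', p', s'⟩, hc'⟩ := c'
  have h1 : WK (rcr τ) (8 * l + 5) (⟨(3 - lam, p', s), hc'⟩ : {c : Cr l S // τ ≠ some c.2.1})
      ⟨(lam', p', s'), hc'⟩ := by
    obtain ⟨f, f0, f1, f2⟩ := WK_odd l (3 - lam) lam'
    refine ⟨fun i => ⟨(f i, p', if i = 0 then s else s'), hc'⟩, ?_, ?_, ?_⟩
    · refine Subtype.ext (Prod.ext f0 (Prod.ext rfl ?_))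
      show (if (0 : ℕ) = 0 then s else s') = s
      exact if_pos rfl
    · refine Subtype.ext (Prod.ext f1 (Prod.ext rfl ?_))
      show (if 8 * l + 5 = 0 then s else s') = s'
      exact if_neg (Nat.succ_ne_zero _)
    · intro i hi
      exact Or.inl ⟨rfl, f2 i hi⟩
  refine WK.cons ?_ h1
  exact Or.inr ⟨by show lam + (3 - lam) = 3; ring, rfl⟩

theorem pr_pos (l m S : ℕ) : 0 < pr l m S := by
  unfold pr
  positivity

theorem pr_le (l m S : ℕ) : pr l m S ≤ 1 := by
  unfold pr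
  have h1 : (0 : ℝ) ≤ l := Nat.cast_nonneg _
  have h2 : (0 : ℝ) ≤ m := Nat.cast_nonneg _
  have h3 : (0 : ℝ) ≤ S := Nat.cast_nonneg _
  rw [div_le_one (by positivity)]
  have e1 : (1 : ℝ) ≤ 2 * m + 1 := by linarith
  have e2 : (1 : ℝ) ≤ 2 * l + 1 := by linarith
  have e3 : (1 : ℝ) ≤ 3 * (S + 1) := by linarith
  have e4 : (1 : ℝ) ≤ (2 * l + 1) * (3 * (S + 1)) := by nlinarith
  nlinarith

theorem pat_r (hl : 2 ≤ l) (a : ZMod (2 * m + 1)) (h : Fin m) (τ : Option (ZMod 3)) :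
    IsPat (rP l r K K1 S a h τ) (rR l S τ) (nr S τ) (4 * l + 3) (pr l m S) where
  p0 := pr_pos l m S
  p1 := pr_le l m S
  ne b := by
    refine ⟨((c3f a h b.1, b.2.1.1, 0, 0, 0, 0), b.2.1.2), ?_⟩
    unfold rP
    rw [mem_cy, mem_singleton, mem_singleton]
    exact ⟨rfl, rfl⟩
  dn b := by
    unfold rP
    rw [den_cy, card_singleton, card_singleton]
    unfold pr
    have h1 : (2 * (m : ℝ) + 1) ≠ 0 := by positivity
    have h2 : (2 * (l : ℝ) + 1) ≠ 0 := by positivity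
    push_cast
    field_simp
  dis b b' hne := by
    rw [Finset.disjoint_left]
    intro t h1 h2
    unfold rP at h1 h2
    rw [mem_cy, mem_singleton, mem_singleton] at h1 h2
    apply hne
    have e1 : b.1 = b'.1 := c3f_inj a h (h1.1.symm.trans h2.1)
    have e2 : b.2 = b'.2 := Subtype.ext (h1.2.symm.trans h2.2)
    exact Prod.ext e1 e2
  sym b b' h := ⟨h.1.symm, rr_symm h.2⟩
  n0 := by unfold nr; positivity
  reg b := by
    have h1 : (univ.filter (fun b' => rR l S τ b b')) =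
        (univ.filter (fun x : Fin 3 => b.1 ≠ x)) ×ˢ
          (univ.filter (fun y : {c : Cr l S // τ ≠ some c.2.1} => rr b.2.1 y.1)) := by
      ext x
      rw [mem_product, mem_filter, mem_filter, mem_filter]
      unfold rR
      simp
    rw [h1, card_product, card_rr_sub hl τ b.2]
    have h2 : ∀ x : Fin 3, (univ.filter (fun y : Fin 3 => x ≠ y)).card = 2 := by decide
    have h3 : (univ.filter (fun x : Fin 3 => b.1 ≠ x)).card = 2 := h2 b.1
    rw [h3]
    rfl
  ew b b' := by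
    obtain ⟨f, f0, f1, f2⟩ := WK_core τ b.2 b'.2
    have hw := WK_ne b.1 b'.1 (4 * l + 2)
    rw [show 2 + 2 * (4 * l + 2) = 2 * (4 * l + 3) from by ring] at hw
    rw [show 8 * l + 6 = 2 * (4 * l + 3) from by ring] at f1 f2
    obtain ⟨f', g0, g1, g2⟩ := hw
    exact ⟨fun i => (f' i, f i), Prod.ext g0 f0, Prod.ext g1 f1, fun i hi => ⟨g2 i hi, f2 i hi⟩⟩

theorem eP_eq (i : ZMod 3) (b : ZMod (2 * l + 1)) :
    (eP l m r K K1 S i b) = cy univ (({b} : Finset (ZMod (2 * l + 1))) ×ˢ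
      (({i} : Finset (ZMod 3)) ×ˢ (univ : Finset (ZMod (S + 1))))) := by
  ext t
  unfold eP
  rw [mem_cy, mem_filter, mem_product, mem_product, mem_singleton, mem_singleton]
  simp only [mem_univ, true_and, and_true]

theorem den_eP (i : ZMod 3) (b : ZMod (2 * l + 1)) :
    den (eP l m r K K1 S i b) = 1 / (3 * (2 * (l : ℝ) + 1)) := by
  rw [eP_eq, den_cy, card_product, card_product, card_singleton, card_singleton, card_univ,
    card_univ, card_zmod, card_zmod]
  have h1 : (2 * (m : ℝ) + 1) ≠ 0 := by positivity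
  have h2 : (2 * (l : ℝ) + 1) ≠ 0 := by positivity
  have h3 : ((S : ℝ) + 1) ≠ 0 := by positivity
  push_cast
  field_simp

theorem pat_e (hl : 1 ≤ l) (i : ZMod 3) :
    IsPat (eP l m r K K1 S i) (eR l) 2 (2 * l + 1) (1 / (3 * (2 * l + 1))) where
  p0 := by positivity
  p1 := by
    have : (0 : ℝ) ≤ l := Nat.cast_nonneg _
    rw [div_le_one (by positivity)]
    linarith
  ne b := by
    refine ⟨((0, b, 0, 0, 0, 0), i, 0), ?_⟩
    unfold eP
    rw [mem_filter]
    exact ⟨mem_univ _, rfl, rfl⟩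
  dn b := den_eP i b
  dis b b' hne := by
    rw [Finset.disjoint_left]
    intro t h1 h2
    unfold eP at h1 h2
    rw [mem_filter] at h1 h2
    exact hne (h1.2.1.symm.trans h2.2.1)
  sym b b' h := rs_symm h
  n0 := by norm_num
  reg b := card_rs hl b
  ew b b' := WK_eR l b b'

theorem stmt_PAT : Stmt_PAT := fun _ _ _ _ _ _ hl _ =>
  ⟨fun a h τ => pat_r hl a h τ, fun i => pat_e (by omega) i⟩

end Pool.Agent.Work.MP_db9399_lh.helper35
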