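import Pool.Agent.Work.MP_db9399_bg_helper67.LAB
import Pool.Agent.Work.MP_db9399_bg_helper67.CODX
import Pool.Agent.Work.MP_db9399_bg_helper96.TRF
import Pool.Agent.Work.MP_db9399_bg_helper21.SXR
import Pool.Agent.Work.MP_db9399_bg_helper27.DEEPF
import Pool.Agent.Work.MP_db9399_bg_helper59.HIT2
import Pool.Agent.Work.MP_db9399_bg_helper29.TUT2
import Pool.Agent.Work.MP_db9399_bg_helper31.FAC
import Pool.Agent.Work.MP_db9399_bg_helper99.UCL
import Pool.Agent.Work.MP_db9399_lc_helper21.SXP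
import Pool.Agent.Work.MP_db9399_lc_helper63.T1
import Pool.Agent.Work.MP_db9399_lc_helper85.GROW
import Pool.Agent.Work.MP_db9399_lc_helper29.UCS
import Pool.Agent.Work.MP_db9399_lc_helper85.EMBB
import Pool.Agent.Work.MP_db9399_lh_helper35.ESX
import Pool.Agent.Work.MP_db9399_lh_helper35.ASM
import Pool.Agent.Work.MP_db9399_lh_helper83.RND1
import Pool.Agent.Work.MP_db9399_lh_helper29.CAPE
import Pool.Agent.Work.MP_db9399_lh_helper22.NDEC
import Pool.Agent.Work.MP_db9399_lh_helper99.VCOL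
import Pool.Agent.Work.MP_db9399_lh_helper99.NRM
import Pool.Agent.Work.MP_db9399_lh_helper21.P0ALL
import Pool.Agent.Work.MP_db9399_lh_helper34.LEFT
import Pool.Agent.Work.MP_db9399_lh_helper34.FIND
import Pool.Agent.Work.MP_db9399_lh_helper90.PEALL
import Pool.Agent.Work.MP_db9399_lh_helper29.UPAR

/-! THEOREM LCH (helper35). -/

set_option autoImplicit false

namespace Pool.Agent.Work.MP_db9399_lh.helper35

universe u

theorem trf : MP_db9399_bg.Stmt_TRF.{u} :=
  MP_db9399_bg.helper96.stmt_TRF MP_db9399_bg.helper67.stmt_CODX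

theorem sxp : MP_db9399_lc.Stmt_SXP.{u} := MP_db9399_lc.helper21.stmt_SXP trf

theorem t1 : MP_db9399_lc.Stmt_T1.{u} := MP_db9399_lc.helper63.stmt_T1 trf

/-- near-regular graphs -/
theorem nrm : Stmt_NRM.{u} :=
  (helper99.stmt_NRM MP_db9399_bg.helper67.stmt_LAB (stmt_ESX sxp)
      (helper83.stmt_RND1 sxp MP_db9399_bg.helper21.stmt_SXR t1 stmt_PAT
        MP_db9399_lc.helper85.stmt_GROW MP_db9399_bg.helper27.stmt_DEEPF
        MP_db9399_bg.helper59.stmt_HIT2 MP_db9399_bg.helper29.stmt_TUT2)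
      (helper29.stmt_CAPE t1 stmt_PAT MP_db9399_lc.helper85.stmt_GROW
        MP_db9399_bg.helper27.stmt_DEEPF)
      (helper22.stmt_NDEC MP_db9399_bg.helper31.stmt_FAC)
      helper99.stmt_VCOL (helper29.stmt_UPAR MP_db9399_bg.helper99.stmt_UCL) helper34.stmt_LEFT helper21.stmt_P0ALL helper90.stmt_PEALL
      stmt_ASM)

theorem stmt_MAIN : Stmt_MAIN.{u} :=
  helper34.stmt_FIND nrm MP_db9399_lc.helper85.stmt_EMBB

end Pool.Agent.Work.MP_db9399_lh.helper35
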